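import Mathlib
import Pool.Agent.TH489.Up.Nest
import Pool.Agent.TH489.Up.Chain
import Pool.Agent.TH489.Up.Draw

set_option autoImplicit false

/-!
Upward planar poly-line grid drawings of bipartite DAGs (every vertex a source or a sink) need
quadratic area in the worst case.

`toPlane` and `polyline` are defined in `Pool/Agent/TH489/Up/Chain.lean`.
-/

namespace Pool.Agent.Results.MP_9caa86_co.QuadraticArea

open Pool.Agent.TH489.Up

/-- A bipartite DAG on the vertex set `Fin n`: the vertices with `src` form the class `V₁`, the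
others the class `V₂`, and every edge goes from `V₁` to `V₂`. -/
structure BipartiteDAG (n : ℕ) where
  src : Fin n → Prop
  Adj : Fin n → Fin n → Prop
  edge : ∀ u v, Adj u v → src u ∧ ¬ src v

/-- The list of grid points of the polygonal chain drawn for the edge `(u, v)`: the point of `u`,
the bends, the point of `v`. -/
def points {n : ℕ} (pos : Fin n → ℤ × ℤ) (bends : Fin n → Fin n → List (ℤ × ℤ))
    (u v : Fin n) : List (ℤ × ℤ) := pos u :: (bends u v ++ [pos v])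

/-- A poly-line upward planar grid drawing: distinct grid points for the vertices; every edge
`(u, v)` is a polygonal chain from the point of `u` to the point of `v` with bends at grid points,
along which the height strictly increases; two distinct edges meet only at the point of a common
endpoint, and no edge passes through a vertex that is not one of its endpoints. -/
structure UpwardDrawing {n : ℕ} (G : BipartiteDAG n) where
  pos : Fin n → ℤ × ℤ
  bends : Fin n → Fin n → List (ℤ × ℤ)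
  pos_inj : Function.Injective pos
  upward : ∀ u v, G.Adj u v → (points pos bends u v).Pairwise (fun p q => p.2 < q.2)
  noncrossing : ∀ u v u' v', G.Adj u v → G.Adj u' v' → (u, v) ≠ (u', v') →
    ∀ z, z ∈ polyline (points pos bends u v) → z ∈ polyline (points pos bends u' v') →
      ∃ w, (w = u ∨ w = v) ∧ (w = u' ∨ w = v') ∧ z = toPlane (pos w)
  vertex_free : ∀ u v w, G.Adj u v →
    toPlane (pos w) ∈ polyline (points pos bends u v) → w = u ∨ w = v

/-- The drawing (its vertices and the bends of its edges) lies in the axis-parallel rectangle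
`[x₀, x₀ + W] × [y₀, y₀ + H]`. -/
def UpwardDrawing.InBox {n : ℕ} {G : BipartiteDAG n} (D : UpwardDrawing G)
    (x₀ y₀ : ℤ) (W H : ℕ) : Prop :=
  (∀ v, x₀ ≤ (D.pos v).1 ∧ (D.pos v).1 ≤ x₀ + W ∧ y₀ ≤ (D.pos v).2 ∧ (D.pos v).2 ≤ y₀ + H) ∧
  ∀ u v, G.Adj u v → ∀ p ∈ D.bends u v, x₀ ≤ p.1 ∧ p.1 ≤ x₀ + W ∧ y₀ ≤ p.2 ∧ p.2 ≤ y₀ + H

/-- The area of a drawing: the least `W * H` over all rectangles with integer corners, of
width `W` and height `H`, that contain the drawing. -/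
noncomputable def UpwardDrawing.area {n : ℕ} {G : BipartiteDAG n} (D : UpwardDrawing G) : ℕ :=
  sInf {a | ∃ (x₀ y₀ : ℤ) (W H : ℕ), D.InBox x₀ y₀ W H ∧ a = W * H}

/-- The minimum area of a poly-line upward planar grid drawing of `G`. -/
noncomputable def minArea {n : ℕ} (G : BipartiteDAG n) : ℕ :=
  sInf {a | ∃ D : UpwardDrawing G, a = D.area}

/-- `A_p n`: the maximum, over all `n`-vertex bipartite DAGs that have an upward planar drawing, of
the minimum area of a poly-line upward planar grid drawing. -/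
noncomputable def A_p (n : ℕ) : ℕ :=
  sSup {a | ∃ G : BipartiteDAG n, Nonempty (UpwardDrawing G) ∧ a = minArea G}

/-! ### The maximum exists -/

instance (n : ℕ) : Finite (BipartiteDAG n) := by
  apply Finite.of_injective
    (fun G : BipartiteDAG n => ((G.src, G.Adj) : (Fin n → Prop) × (Fin n → Fin n → Prop)))
  rintro ⟨s, a, h⟩ ⟨s', a', h'⟩ he
  simp only [Prod.mk.injEq] at he
  obtain ⟨rfl, rfl⟩ := he
  rfl

theorem le_A_p {n : ℕ} (G : BipartiteDAG n) (h : Nonempty (UpwardDrawing G)) :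
    minArea G ≤ A_p n := by
  apply le_csSup
  · exact ((Set.finite_range (minArea (n := n))).subset (by
      rintro a ⟨G, -, rfl⟩; exact ⟨G, rfl⟩)).bddAbove
  · exact ⟨G, h, rfl⟩

theorem exists_box {n : ℕ} {G : BipartiteDAG n} (D : UpwardDrawing G) :
    ∃ (x₀ y₀ : ℤ) (W H : ℕ), D.InBox x₀ y₀ W H := by
  have hfin : (Set.range D.pos ∪ ⋃ u, ⋃ v, {p | p ∈ D.bends u v}).Finite := by
    apply (Set.finite_range _).union
    apply Set.finite_iUnion
    intro u
    apply Set.finite_iUnion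
    intro v
    exact List.finite_toSet _
  obtain ⟨B, hB⟩ := (hfin.image (fun p : ℤ × ℤ => p.1.natAbs + p.2.natAbs)).bddAbove
  have key : ∀ p ∈ (Set.range D.pos ∪ ⋃ u, ⋃ v, {p | p ∈ D.bends u v}),
      p.1.natAbs + p.2.natAbs ≤ B := fun p hp => hB ⟨p, hp, rfl⟩
  refine ⟨-B, -B, 2 * B, 2 * B, ?_, ?_⟩
  · intro v
    have := key _ (Or.inl ⟨v, rfl⟩)
    push_cast
    omega
  · intro u v _ p hp
    have := key p (Or.inr (Set.mem_iUnion.2 ⟨u, Set.mem_iUnion.2 ⟨v, hp⟩⟩))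
    push_cast
    omega

theorem le_area {n : ℕ} {G : BipartiteDAG n} (D : UpwardDrawing G) (b : ℕ)
    (h : ∀ (x₀ y₀ : ℤ) (W H : ℕ), D.InBox x₀ y₀ W H → b ≤ W * H) : b ≤ D.area := by
  obtain ⟨x₀, y₀, W, H, hb⟩ := exists_box D
  have hne : {a | ∃ (x₀ y₀ : ℤ) (W H : ℕ), D.InBox x₀ y₀ W H ∧ a = W * H}.Nonempty :=
    ⟨_, x₀, y₀, W, H, hb, rfl⟩
  obtain ⟨x₁, y₁, W₁, H₁, hb₁, he⟩ := Nat.sInf_mem hne
  unfold UpwardDrawing.area
  rw [he]
  exact h _ _ _ _ hb₁

/-! ### Curves of a drawing -/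

section curves

variable {n : ℕ} {G : BipartiteDAG n} (D : UpwardDrawing G) (hn : 0 < n)

/-- vertex number `v` -/
def vx (hn : 0 < n) (v : ℕ) : Fin n := ⟨v % n, Nat.mod_lt _ hn⟩

theorem vx_inj {n : ℕ} (hn : 0 < n) {u v : ℕ} (hu : u < n) (hv : v < n)
    (h : vx hn u = vx hn v) : u = v := by
  have := congrArg Fin.val h
  unfold vx at this
  simpa [Nat.mod_eq_of_lt hu, Nat.mod_eq_of_lt hv] using this

theorem pts_asc {u v : Fin n} (h : G.Adj u v) : Asc (points D.pos D.bends u v) := D.upward u v h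

theorem pts_last (u v : Fin n) :
    (D.pos u :: (D.bends u v ++ [D.pos v])).getLast (by simp) = D.pos v := by
  rw [List.getLast_cons (by simp)]
  simp

/-- the system of curves of a drawing -/
noncomputable def sys : Sys ℕ where
  X v := ((D.pos (vx hn v)).1 : ℝ)
  Y v := ((D.pos (vx hn v)).2 : ℝ)
  E u v := u < n ∧ v < n ∧ G.Adj (vx hn u) (vx hn v)
  F u v := Fn (points D.pos D.bends (vx hn u) (vx hn v))
  lt := by
    rintro u v ⟨-, -, h⟩
    have := D.upward _ _ h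
    unfold points at this
    have := (List.pairwise_cons.1 this).1 (D.pos (vx hn v)) (by simp)
    exact_mod_cast this
  bot := by
    rintro u v ⟨-, -, h⟩
    exact Fn_head (pts_asc D h)
  top := by
    rintro u v ⟨-, -, h⟩
    exact Fn_point _ _ (pts_asc D h) _ (by simp)
  cont := by
    rintro u v ⟨-, -, h⟩
    exact Fn_cont _ _ (pts_asc D h)
  ne := by
    rintro u v u' v' ⟨hu, hv, h⟩ ⟨hu', hv', h'⟩ huu hvv y y1 y2 y3 y4 he
    have m1 := (Fn_range _ _ (pts_asc D h) y y1 (by rw [pts_last]; exact y2)).1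
    have m2 := (Fn_range _ _ (pts_asc D h') y y3 (by rw [pts_last]; exact y4)).1
    have he' : Fn (D.pos (vx hn u) :: (D.bends (vx hn u) (vx hn v) ++ [D.pos (vx hn v)])) y =
      Fn (D.pos (vx hn u') :: (D.bends (vx hn u') (vx hn v') ++ [D.pos (vx hn v')])) y := he
    rw [← he'] at m2
    have hne : (vx hn u, vx hn v) ≠ (vx hn u', vx hn v') := by
      intro hh
      exact huu (vx_inj hn hu hu' (congrArg Prod.fst hh))
    obtain ⟨w, hw1, hw2, -⟩ := D.noncrossing _ _ _ _ h h' hne _ m1 m2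
    have s1 := G.edge _ _ h
    have s2 := G.edge _ _ h'
    rcases hw1 with rfl | rfl <;> rcases hw2 with hw2 | hw2
    · exact huu (vx_inj hn hu hu' hw2)
    · rw [← hw2] at s2; exact s2.2 s1.1
    · rw [← hw2] at s2; exact s1.2 s2.1
    · exact hvv (vx_inj hn hv hv' hw2)

/-- the grid points on the curves -/
noncomputable def grid : Grid (sys D hn) where
  K p q := {P | P ∈ points D.pos D.bends (vx hn p) (vx hn q)}
  on := by
    rintro p q ⟨-, -, h⟩ P hP
    have h1 := last_ge _ _ (pts_asc D h) P hP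
    rw [pts_last] at h1
    refine ⟨?_, ?_, Fn_point _ _ (pts_asc D h) P hP⟩
    · have := h1.1
      show ((D.pos (vx hn p)).2 : ℝ) ≤ P.2
      exact_mod_cast this
    · have := h1.2
      show (P.2 : ℝ) ≤ ((D.pos (vx hn q)).2 : ℝ)
      exact_mod_cast this
  lo := by
    rintro p q ⟨-, -, h⟩ t t1 t2
    exact (Fn_range _ _ (pts_asc D h) t t1 (by rw [pts_last]; exact t2)).2.1
  hi := by
    rintro p q ⟨-, -, h⟩ t t1 t2
    exact (Fn_range _ _ (pts_asc D h) t t1 (by rw [pts_last]; exact t2)).2.2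
  src := by
    rintro p q ⟨-, -, h⟩
    exact ⟨D.pos (vx hn p), by simp [points], rfl⟩
  snk := by
    rintro p q ⟨-, -, h⟩
    exact ⟨D.pos (vx hn q), by simp [points], rfl⟩

theorem gp_box {x₀ y₀ : ℤ} {W H : ℕ} (hb : D.InBox x₀ y₀ W H) {j : ℕ}
    (hE : ∀ p q, (p = 4 * j ∨ p = 4 * j + 2) → (q = 4 * j + 1 ∨ q = 4 * j + 3) →
      (sys D hn).E p q) {P : ℤ × ℤ} (hP : P ∈ GP (grid D hn) j) :
    x₀ ≤ P.1 ∧ P.1 ≤ x₀ + W ∧ y₀ ≤ P.2 ∧ P.2 ≤ y₀ + H := by
  obtain ⟨p, q, hp, hq, hK⟩ := hP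
  obtain ⟨-, -, hadj⟩ := hE p q hp hq
  have hK' : P ∈ points D.pos D.bends (vx hn p) (vx hn q) := hK
  unfold points at hK'
  rcases List.mem_cons.1 hK' with rfl | hK'
  · exact hb.1 _
  · rcases List.mem_append.1 hK' with hK' | hK'
    · exact hb.2 _ _ hadj _ hK'
    · rw [List.mem_singleton.1 hK']; exact hb.1 _

end curves

/-! ### The graph -/

/-- the graph with `u ∼ v` iff `|u - v| ∈ {1, 3}`, directed from even to odd numbers -/
def GN (n : ℕ) : BipartiteDAG n where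
  src u := u.val % 2 = 0
  Adj u v := u.val % 2 = 0 ∧ v.val % 2 = 1 ∧
    (v.val = u.val + 1 ∨ u.val = v.val + 1 ∨ v.val = u.val + 3 ∨ u.val = v.val + 3)
  edge := by
    rintro u v ⟨h1, h2, -⟩
    exact ⟨h1, by omega⟩

theorem lower {n M : ℕ} (hM : 0 < M) (hn : 4 * M + 4 < n) (D : UpwardDrawing (GN n)) :
    (M - 2) ^ 2 ≤ D.area := by
  apply le_area
  intro x₀ y₀ W H hb
  have hn0 : 0 < n := by omega
  have hS : HasE (sys D hn0) n := by
    intro u v hu hv h1 h2 h3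
    refine ⟨hu, hv, ?_⟩
    show (vx hn0 u).val % 2 = 0 ∧ (vx hn0 v).val % 2 = 1 ∧ _
    have eu : (vx hn0 u).val = u := Nat.mod_eq_of_lt hu
    have ev : (vx hn0 v).val = v := Nat.mod_eq_of_lt hv
    rw [eu, ev]
    exact ⟨h1, h2, h3⟩
  obtain ⟨j, k, hj, hk, ⟨⟨P, hP, Q, hQ, hPQ⟩, ⟨P', hP', Q', hQ', hPQ'⟩⟩⟩ :=
    exists_wide hS (grid D hn0) hM hn
  have hE : ∀ p q, (p = 4 * j ∨ p = 4 * j + 2) → (q = 4 * j + 1 ∨ q = 4 * j + 3) →
      (sys D hn0).E p q := fun p q hp hq => cyc_E hS hj hp hq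
  have b1 := gp_box D hn0 hb hE hP
  have b2 := gp_box D hn0 hb hE hQ
  have b3 := gp_box D hn0 hb hE hP'
  have b4 := gp_box D hn0 hb hE hQ'
  have hW : M - 2 ≤ W := by omega
  have hH : M - 2 ≤ H := by omega
  calc (M - 2) ^ 2 = (M - 2) * (M - 2) := by ring
    _ ≤ W * H := Nat.mul_le_mul hW hH

/-! ### A drawing of the graph -/

def px (v : ℕ) : ℤ := if v % 4 = 1 then (v / 4 : ℕ) + 2 else if v % 4 = 3 then -((v / 4 : ℕ) + 2)
  else 0

def py (v : ℕ) : ℤ := if v % 4 = 0 then -((v / 4 : ℕ) + 2) ^ 2 else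
  if v % 4 = 2 then (v / 4 : ℕ) + 1 else ((v / 4 : ℕ) + 2) ^ 2

theorem p_inj {u v : ℕ} (hx : px u = px v) (hy : py u = py v) : u = v := by
  unfold px at hx
  unfold py at hy
  have hu : u = 4 * (u / 4) + u % 4 := by omega
  have hv : v = 4 * (v / 4) + v % 4 := by omega
  generalize u / 4 = a at *
  generalize v / 4 = b at *
  have h1 : u % 4 < 4 := Nat.mod_lt _ (by norm_num)
  have h2 : v % 4 < 4 := Nat.mod_lt _ (by norm_num)
  generalize u % 4 = r at *
  generalize v % 4 = s at *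
  have ha : (0 : ℤ) ≤ a := by positivity
  have hb : (0 : ℤ) ≤ b := by positivity
  have hab : (a : ℤ) = b → a = b := by intro h; exact_mod_cast h
  interval_cases r <;> interval_cases s <;> simp at hx hy <;>
    first
    | (have : (a : ℤ) = b := by nlinarith); (have := hab this); omega
    | (exfalso; nlinarith)

theorem p0 (a : ℕ) : px (4 * a) = 0 ∧ py (4 * a) = -((a : ℤ) + 2) ^ 2 := by
  have h1 : 4 * a % 4 = 0 := by omega
  have h2 : 4 * a / 4 = a := by omega
  unfold px py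
  simp [h1, h2]

theorem p1 (a : ℕ) : px (4 * a + 1) = (a : ℤ) + 2 ∧ py (4 * a + 1) = ((a : ℤ) + 2) ^ 2 := by
  have h1 : (4 * a + 1) % 4 = 1 := by omega
  have h2 : (4 * a + 1) / 4 = a := by omega
  unfold px py
  simp [h1, h2]

theorem p2 (a : ℕ) : px (4 * a + 2) = 0 ∧ py (4 * a + 2) = (a : ℤ) + 1 := by
  have h1 : (4 * a + 2) % 4 = 2 := by omega
  have h2 : (4 * a + 2) / 4 = a := by omega
  unfold px py
  simp [h1, h2]

theorem p3 (a : ℕ) : px (4 * a + 3) = -((a : ℤ) + 2) ∧ py (4 * a + 3) = ((a : ℤ) + 2) ^ 2 := by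
  have h1 : (4 * a + 3) % 4 = 3 := by omega
  have h2 : (4 * a + 3) / 4 = a := by omega
  unfold px py
  simp [h1, h2]

/-- normal form of an edge -/
theorem edge_form {n : ℕ} {u v : Fin n} (h : (GN n).Adj u v) :
    ∃ a b : ℕ, (u.val = 4 * a ∧ v.val = 4 * b + 1 ∧ (b = a ∨ a = b + 1)) ∨
      (u.val = 4 * a ∧ v.val = 4 * b + 3 ∧ (b = a ∨ a = b + 1)) ∨
      (u.val = 4 * a + 2 ∧ v.val = 4 * b + 1 ∧ (b = a ∨ b = a + 1)) ∨
      (u.val = 4 * a + 2 ∧ v.val = 4 * b + 3 ∧ (b = a ∨ a = b + 1)) := by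
  obtain ⟨h1, h2, h3⟩ := h
  refine ⟨u.val / 4, v.val / 4, ?_⟩
  omega

/-- the numbers describing an edge: `s` = height of the source, `t` = abscissa of the sink -/
theorem edge_real {n : ℕ} {u v : Fin n} (h : (GN n).Adj u v) :
    px u.val = 0 ∧ px v.val ≠ 0 ∧ py v.val = px v.val ^ 2 ∧ py u.val < py v.val := by
  obtain ⟨a, b, h⟩ := edge_form h
  rcases h with ⟨h1, h2, h3⟩ | ⟨h1, h2, h3⟩ | ⟨h1, h2, h3⟩ | ⟨h1, h2, h3⟩ <;> rw [h1, h2]
  · rw [(p0 a).1, (p0 a).2, (p1 b).1, (p1 b).2]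
    exact ⟨rfl, by positivity, rfl, by nlinarith [sq_nonneg ((a : ℤ) + 2)]⟩
  · rw [(p0 a).1, (p0 a).2, (p3 b).1, (p3 b).2]
    refine ⟨rfl, by omega, by ring, by nlinarith [sq_nonneg ((a : ℤ) + 2)]⟩
  · rw [(p2 a).1, (p2 a).2, (p1 b).1, (p1 b).2]
    refine ⟨rfl, by positivity, rfl, ?_⟩
    rcases h3 with rfl | rfl <;> push_cast <;> nlinarith
  · rw [(p2 a).1, (p2 a).2, (p3 b).1, (p3 b).2]
    refine ⟨rfl, by omega, by ring, ?_⟩
    rcases h3 with rfl | rfl <;> push_cast <;> nlinarith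

/-- `s` = height of the source, `ρ` = distance of the sink from the axis -/
def Info (s ρ : ℤ) (ε : ℤ) : Prop :=
  ∃ a : ℤ, 0 ≤ a ∧ ((s = a + 1 ∧ (ρ = a + 2 ∨ ρ = a + 2 + ε)) ∨
    (s = -(a + 2) ^ 2 ∧ (ρ = a + 2 ∨ ρ = a + 1)))

theorem info {n : ℕ} {u v : Fin n} (h : (GN n).Adj u v) :
    (0 < px v.val → Info (py u.val) (px v.val) 1) ∧
      (px v.val < 0 → Info (py u.val) (-px v.val) (-1)) := by
  obtain ⟨a, b, h⟩ := edge_form h
  have ca : (0 : ℤ) ≤ a := by positivity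
  have cb : (0 : ℤ) ≤ b := by positivity
  rcases h with ⟨h1, h2, h3⟩ | ⟨h1, h2, h3⟩ | ⟨h1, h2, h3⟩ | ⟨h1, h2, h3⟩ <;> rw [h1, h2]
  · rw [(p0 a).2, (p1 b).1]
    refine ⟨fun _ => ⟨a, ca, Or.inr ⟨rfl, by omega⟩⟩, fun hh => absurd hh (by omega)⟩
  · rw [(p0 a).2, (p3 b).1]
    refine ⟨fun hh => absurd hh (by omega), fun _ => ⟨a, ca, Or.inr ⟨rfl, by omega⟩⟩⟩
  · rw [(p2 a).2, (p1 b).1]
    refine ⟨fun _ => ⟨a, ca, Or.inl ⟨rfl, by omega⟩⟩, fun hh => absurd hh (by omega)⟩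
  · rw [(p2 a).2, (p3 b).1]
    refine ⟨fun hh => absurd hh (by omega), fun _ => ⟨a, ca, Or.inl ⟨rfl, by omega⟩⟩⟩

theorem info_comp {s ρ s' ρ' ε : ℤ} (hε : ε = 1 ∨ ε = -1) (h : Info s ρ ε) (h' : Info s' ρ' ε) :
    (0 < s ∧ 0 < s' ∧ ((s ≤ s' ∧ ρ ≤ ρ') ∨ (s' ≤ s ∧ ρ' ≤ ρ))) ∨
    (s ≤ - ρ ^ 2 ∧ s' ≤ - ρ' ^ 2 ∧ ((s' ≤ s ∧ ρ ≤ ρ') ∨ (s ≤ s' ∧ ρ' ≤ ρ))) ∨
    (0 < s ∧ s' ≤ - ρ' ^ 2) ∨ (s ≤ - ρ ^ 2 ∧ 0 < s') := by
  have sq : ∀ a ρ : ℤ, 0 ≤ a → (ρ = a + 2 ∨ ρ = a + 1) → -(a + 2) ^ 2 ≤ - ρ ^ 2 := by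
    rintro a ρ ha (rfl | rfl) <;> nlinarith
  have mono : ∀ a c : ℤ, 0 ≤ a → a ≤ c → -(c + 2) ^ 2 ≤ -(a + 2) ^ 2 := by
    intro a c h1 h2; nlinarith
  obtain ⟨a, ha, h⟩ := h
  obtain ⟨c, hc, h'⟩ := h'
  rcases h with ⟨h1, h2⟩ | ⟨h1, h2⟩ <;> rcases h' with ⟨g1, g2⟩ | ⟨g1, g2⟩
  · left
    omega
  · right; right; left
    exact ⟨by omega, by rw [g1]; exact sq c ρ' hc g2⟩
  · right; right; right
    exact ⟨by rw [h1]; exact sq a ρ ha h2, by omega⟩
  · right; left
    refine ⟨by rw [h1]; exact sq a ρ ha h2, by rw [g1]; exact sq c ρ' hc g2, ?_⟩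
    rcases lt_trichotomy a c with e | e | e
    · left; exact ⟨by rw [h1, g1]; exact mono a c ha e.le, by omega⟩
    · subst e
      rcases le_total ρ ρ' with f | f
      · left; exact ⟨by rw [h1, g1], f⟩
      · right; exact ⟨by rw [h1, g1], f⟩
    · right; exact ⟨by rw [h1, g1]; exact mono c a hc e.le, by omega⟩

theorem comp_cases {n : ℕ} {u v u' v' : Fin n} (h : (GN n).Adj u v) (h' : (GN n).Adj u' v')
    (hs : 0 < px v.val * px v'.val) :
    Comp (py u.val : ℝ) (px v.val : ℝ) (py u'.val : ℝ) (px v'.val : ℝ) := by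
  have i1 := info h
  have i2 := info h'
  have key : (0 < py u.val ∧ 0 < py u'.val ∧ ((py u.val ≤ py u'.val ∧ |px v.val| ≤ |px v'.val|) ∨
      (py u'.val ≤ py u.val ∧ |px v'.val| ≤ |px v.val|))) ∨
    (py u.val ≤ - px v.val ^ 2 ∧ py u'.val ≤ - px v'.val ^ 2 ∧
      ((py u'.val ≤ py u.val ∧ |px v.val| ≤ |px v'.val|) ∨
      (py u.val ≤ py u'.val ∧ |px v'.val| ≤ |px v.val|))) ∨
    (0 < py u.val ∧ py u'.val ≤ - px v'.val ^ 2) ∨ (py u.val ≤ - px v.val ^ 2 ∧ 0 < py u'.val) := by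
    rcases lt_trichotomy (px v.val) 0 with c | c | c
    · have c' : px v'.val < 0 := by
        by_contra hh; push Not at hh; nlinarith
      have := info_comp (Or.inr rfl) (i1.2 c) (i2.2 c')
      rw [neg_sq, neg_sq] at this
      rwa [abs_of_neg c, abs_of_neg c']
    · rw [c] at hs; simp at hs
    · have c' : 0 < px v'.val := by
        by_contra hh; push Not at hh; nlinarith
      have := info_comp (Or.inl rfl) (i1.1 c) (i2.1 c')
      rwa [abs_of_pos c, abs_of_pos c']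
  unfold Comp
  exact_mod_cast key

/-- the position of the vertex `v` -/
def pt {n : ℕ} (v : Fin n) : ℤ × ℤ := (px v.val, py v.val)

theorem pt_inj {n : ℕ} : Function.Injective (pt (n := n)) := by
  intro u v h
  have h1 := congrArg Prod.fst h
  have h2 := congrArg Prod.snd h
  exact Fin.ext (p_inj h1 h2)

theorem poly_pt {n : ℕ} (u v : Fin n) :
    polyline (points pt (fun _ _ => []) u v) =
      segment ℝ (toPlane (pt u)) (toPlane (pt v)) ∪ {toPlane (pt v)} := by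
  unfold points
  rfl

theorem poly_pt' {n : ℕ} (u v : Fin n) :
    polyline (points pt (fun _ _ => []) u v) =
      segment ℝ (toPlane (pt u)) (toPlane (pt v)) := by
  rw [poly_pt]
  apply Set.union_eq_left.2
  intro z hz
  rw [Set.mem_singleton_iff.1 hz]
  exact right_mem_segment _ _ _

theorem nc {n : ℕ} (u v u' v' : Fin n) (h : (GN n).Adj u v) (h' : (GN n).Adj u' v')
    (hne : (u, v) ≠ (u', v')) (z : ℝ × ℝ)
    (hz : z ∈ polyline (points pt (fun _ _ => []) u v))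
    (hz' : z ∈ polyline (points pt (fun _ _ => []) u' v')) :
    ∃ w, (w = u ∨ w = v) ∧ (w = u' ∨ w = v') ∧ z = toPlane (pt w) := by
  rw [poly_pt'] at hz hz'
  obtain ⟨a1, a2, a3, -⟩ := edge_real h
  obtain ⟨b1, b2, b3, -⟩ := edge_real h'
  have e1 : toPlane (pt u) = ((0 : ℝ), (py u.val : ℝ)) := by
    unfold toPlane pt; simp [a1]
  have e2 : toPlane (pt v) = ((px v.val : ℝ), (px v.val : ℝ) ^ 2) := by
    unfold toPlane pt; simp [a3]
  have e3 : toPlane (pt u') = ((0 : ℝ), (py u'.val : ℝ)) := by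
    unfold toPlane pt; simp [b1]
  have e4 : toPlane (pt v') = ((px v'.val : ℝ), (px v'.val : ℝ) ^ 2) := by
    unfold toPlane pt; simp [b3]
  rw [e1, e2] at hz
  rw [e3, e4] at hz'
  have hsame1 : (py u.val : ℝ) = py u'.val → u = u' := by
    intro hh
    have hh' : py u.val = py u'.val := by exact_mod_cast hh
    exact Fin.ext (p_inj (by rw [a1, b1]) hh')
  have hsame2 : (px v.val : ℝ) = px v'.val → v = v' := by
    intro hh
    have hh' : px v.val = px v'.val := by exact_mod_cast hh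
    exact Fin.ext (p_inj hh' (by rw [a3, b3, hh']))
  rcases meet_seg (by exact_mod_cast a2) (by exact_mod_cast b2)
    (fun hs => comp_cases h h' (by exact_mod_cast hs)) hz hz' with ⟨g1, g2⟩ | ⟨g1, g2⟩ | ⟨g1, g2⟩
  · exact ⟨u, Or.inl rfl, Or.inl (hsame1 g1), by rw [e1]; exact g2⟩
  · exact ⟨v, Or.inr rfl, Or.inr (hsame2 g1), by rw [e2]; exact g2⟩
  · exact absurd (Prod.ext (hsame1 g1) (hsame2 g2)) hne

/-- the drawing -/
theorem drawing {n : ℕ} (hn : 2 ≤ n) : Nonempty (UpwardDrawing (GN n)) := by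
  refine ⟨⟨pt, fun _ _ => [], pt_inj, ?_, nc, ?_⟩⟩
  · intro u v h
    have := (edge_real h).2.2.2
    unfold points
    simp only [List.nil_append, List.pairwise_cons, List.mem_singleton, forall_eq,
      List.not_mem_nil, false_implies, implies_true, List.Pairwise.nil, and_true]
    exact this
  · intro u v w h hw
    by_contra hc
    push Not at hc
    -- an edge at `w`
    have hedge : ∃ a b : Fin n, (GN n).Adj a b ∧ (w = a ∨ w = b) := by
      rcases Nat.mod_two_eq_zero_or_one w.val with hp | hp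
      · by_cases hl : w.val + 1 < n
        · exact ⟨w, ⟨w.val + 1, hl⟩, ⟨hp, by simp; omega, by simp⟩, Or.inl rfl⟩
        · have hlt := w.isLt
          refine ⟨w, ⟨w.val - 1, by omega⟩, ⟨hp, by simp; omega, ?_⟩, Or.inl rfl⟩
          right; left; simp; omega
      · refine ⟨⟨w.val - 1, by have := w.isLt; omega⟩, w, ⟨by simp; omega, hp, ?_⟩, Or.inr rfl⟩
        left; simp; omega
    obtain ⟨a, b, hab, hwab⟩ := hedge
    have hmem : toPlane (pt w) ∈ polyline (points pt (fun _ _ => []) a b) := by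
      rw [poly_pt']
      rcases hwab with rfl | rfl
      · exact left_mem_segment _ _ _
      · exact right_mem_segment _ _ _
    have hne : (u, v) ≠ (a, b) := by
      intro he
      have e1 := congrArg Prod.fst he
      have e2 := congrArg Prod.snd he
      simp only at e1 e2
      rcases hwab with rfl | rfl
      · exact hc.1 e1.symm
      · exact hc.2 e2.symm
    obtain ⟨w', h1, -, h3⟩ := nc u v a b h hab hne _ hw hmem
    have h4 : w = w' := by
      apply pt_inj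
      unfold toPlane at h3
      have e1 := congrArg Prod.fst h3
      have e2 := congrArg Prod.snd h3
      simp only at e1 e2
      exact Prod.ext (by exact_mod_cast e1) (by exact_mod_cast e2)
    rw [h4] at hc
    rcases h1 with h1 | h1
    · exact hc.1 h1
    · exact hc.2 h1

theorem lower_min {n M : ℕ} (hM : 0 < M) (hn : 4 * M + 4 < n) :
    (M - 2) ^ 2 ≤ minArea (GN n) := by
  obtain ⟨D⟩ := drawing (n := n) (by omega)
  have hne : {a | ∃ D : UpwardDrawing (GN n), a = D.area}.Nonempty := ⟨_, D, rfl⟩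
  obtain ⟨D', hD'⟩ := Nat.sInf_mem hne
  unfold minArea
  rw [hD']
  exact lower hM hn D'

/-- **Poly-line upward planar grid drawings of bipartite DAGs need quadratic area.**
For every `n ≥ 16` some upward planar bipartite DAG on `n` vertices has area at least
`(n - 16)² / 16` in every poly-line upward planar grid drawing. -/
theorem result (n : ℕ) (hn : 16 ≤ n) : ((n : ℝ) - 16) ^ 2 / 16 ≤ (A_p n : ℝ) := by
  obtain ⟨M, hM⟩ : ∃ M, M = (n - 5) / 4 := ⟨_, rfl⟩
  have h1 : (M - 2) ^ 2 ≤ A_p n :=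
    (lower_min (M := M) (by omega) (by omega)).trans (le_A_p _ (drawing (by omega)))
  have h2 : n ≤ 4 * (M - 2) + 16 := by omega
  have h3 : (((M - 2 : ℕ) : ℝ)) ^ 2 ≤ A_p n := by exact_mod_cast h1
  have h4 : (n : ℝ) ≤ 4 * ((M - 2 : ℕ) : ℝ) + 16 := by exact_mod_cast h2
  have h5 : (16 : ℝ) ≤ n := by exact_mod_cast hn
  have h6 : (0 : ℝ) ≤ ((M - 2 : ℕ) : ℝ) := by positivity
  nlinarith

end Pool.Agent.Results.MP_9caa86_co.QuadraticArea
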